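import Mathlib
import Pool.Agent.Helper82.NSR.Assembly

namespace Pool.Agent.Results.MP_f11ae4_lc.NSREquivalence

open MvPolynomial

universe u

/-- A literal over `x_0, ..., x_(n-1)`: `(j, true)` is `x_j`, `(j, false)` is `¬ x_j`.
A clause is a finite set of literals, a CNF a finite set of clauses. -/
abbrev Clause (n : ℕ) := Finset (Fin n × Bool)

abbrev CNF (n : ℕ) := Finset (Clause n)

/-- Every assignment falsifies some clause. -/
def Unsatisfiable {n : ℕ} (φ : CNF n) : Prop :=
  ∀ x : Fin n → Bool, ∃ C ∈ φ, ∀ l ∈ C, x l.1 ≠ l.2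

/-- `|φ|`: total number of literal occurrences plus the number of clauses. -/
def cnfSize {n : ℕ} (φ : CNF n) : ℕ := ∑ C ∈ φ, (C.card + 1)

/-- Polynomials in the variables `x_j = X (j, true)` and the dual variables `x̄_j = X (j, false)`. -/
abbrev Poly (F : Type*) [Field F] (n : ℕ) := MvPolynomial (Fin n × Bool) F

/-- `m_C`: the product of `x̄_j` over `x_j ∈ C` and of `x_j` over `¬ x_j ∈ C`. -/
noncomputable def clauseMonomial (F : Type*) [Field F] {n : ℕ} (C : Clause n) : Poly F n :=
  ∏ l ∈ C, X (l.1, !l.2)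

/-- NSR refutation of `φ` over `F`: a formal identity. -/
def IsNSR {F : Type*} [Field F] {n : ℕ} (φ : CNF n) (q : Clause n → Poly F n)
    (r s : Fin n → Poly F n) : Prop :=
  ∑ C ∈ φ, clauseMonomial F C * q C + ∑ j, (X (j, true) ^ 2 - X (j, true)) * r j
    + ∑ j, (X (j, true) + X (j, false) - 1) * s j = 1

/-- The ideal generated by `x_j^2 - x_j` and `x_j + x̄_j - 1`. -/
noncomputable def boolIdeal (F : Type*) [Field F] (n : ℕ) : Ideal (Poly F n) :=
  Ideal.span (Set.range (fun j : Fin n => (X (j, true) ^ 2 - X (j, true) : Poly F n)) ∪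
    Set.range (fun j : Fin n => (X (j, true) + X (j, false) - 1 : Poly F n)))

/-- Succinct NSR refutation: `∑ m_C q_C ≡ 1` modulo the ideal. -/
def IsSuccinctNSR {F : Type*} [Field F] {n : ℕ} (φ : CNF n) (q : Clause n → Poly F n) : Prop :=
  ∑ C ∈ φ, clauseMonomial F C * q C - 1 ∈ boolIdeal F n

/-- Bit size of a rational number: binary lengths of numerator and denominator. -/
def bitSize (a : ℚ) : ℕ := Nat.size a.num.natAbs + Nat.size a.den

/-- Size of a polynomial: number of monomials plus the sizes `w` of their coefficients.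
With `w = 0` this is the number of monomials. -/
noncomputable def polySizeW {F : Type*} [Field F] {n : ℕ} (w : F → ℕ) (p : Poly F n) : ℕ :=
  ∑ m ∈ p.support, (1 + w (p.coeff m))

/-- A refutation system with a size measure: `A n φ t` says that the CNF `φ` in `n` variables has an
`A`-refutation of size `t`. -/
abbrev System := (n : ℕ) → CNF n → ℕ → Prop

/-- NSR over `F`; all multipliers count. -/
def NSR (F : Type u) [Field F] (w : F → ℕ) : System := fun n φ t =>
  ∃ (q : Clause n → Poly F n) (r s : Fin n → Poly F n), IsNSR φ q r s ∧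
    t = ∑ C ∈ φ, polySizeW w (q C) + ∑ j, polySizeW w (r j) + ∑ j, polySizeW w (s j)

/-- Succinct NSR over `F`; only the `q_C` count. -/
def SuccinctNSR (F : Type u) [Field F] (w : F → ℕ) : System := fun n φ t =>
  ∃ q : Clause n → Poly F n, IsSuccinctNSR φ q ∧ t = ∑ C ∈ φ, polySizeW w (q C)

/-- `A` polynomially simulates `B`. -/
def PolySimulates (A B : System) : Prop :=
  ∃ p : Polynomial ℕ, ∀ (n : ℕ) (φ : CNF n) (s : ℕ), Unsatisfiable φ → B n φ s →
    ∃ t, A n φ t ∧ t ≤ p.eval (s + cnfSize φ)

/-- Mutual polynomial simulation. -/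
def PolyEquivalent (A B : System) : Prop := PolySimulates A B ∧ PolySimulates B A

open Pool.Agent.Helper80.NSR

/-- the set of variables occurring in `m_C` -/
def dualSet {n : ℕ} (C : Clause n) : Finset (Fin n × Bool) := C.image (fun l => (l.1, !l.2))

theorem clauseMonomial_eq (F : Type*) [Field F] {n : ℕ} (C : Clause n) :
    clauseMonomial F C = ∏ v ∈ dualSet C, X v := by
  unfold clauseMonomial dualSet
  rw [Finset.prod_image]
  intro a _ b _ h
  simp only [Prod.mk.injEq, Bool.not_inj_iff] at h
  exact Prod.ext h.1 h.2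

theorem eval_boolIdeal {F : Type*} [Field F] {n : ℕ} (x : Fin n → Bool) (p : Poly F n)
    (hp : p ∈ boolIdeal F n) : eval (bv F x) p = 0 := by
  have h : boolIdeal F n ≤ RingHom.ker (eval (bv F x)) := by
    unfold boolIdeal
    rw [Ideal.span_le]
    rintro _ (⟨j, rfl⟩ | ⟨j, rfl⟩)
    · simp only [SetLike.mem_coe, RingHom.mem_ker, map_sub, map_pow, eval_X]
      rw [pow_two, bv_idem, sub_self]
    · simp only [SetLike.mem_coe, RingHom.mem_ker, map_sub, map_add, eval_X, map_one]
      unfold bv
      cases x j <;> simp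
  exact h hp

/-- the blocks of the identity `∑ m_C q_C - 1 = 0` -/
noncomputable def blockD {n : ℕ} (u : Option (Clause n)) : Finset (Fin n × Bool) := u.elim ∅ dualSet

noncomputable def blockP {F : Type*} [Field F] {n : ℕ} (q : Clause n → Poly F n) (u : Option (Clause n)) :
    Poly F n := u.elim (C (-1)) q

theorem block_eval {F : Type*} [Field F] {n : ℕ} (φ : CNF n) (q : Clause n → Poly F n)
    (hq : IsSuccinctNSR φ q) (x : Fin n → Bool) :
    ∑ u ∈ Finset.insertNone φ, eval (bv F x) ((∏ v ∈ blockD u, X v) * blockP q u) = 0 := by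
  rw [Finset.sum_insertNone]
  have h := eval_boolIdeal x _ hq
  rw [map_sub, map_one, map_sum] at h
  have e0 : eval (bv F x) ((∏ v ∈ blockD (none : Option (Clause n)), X v) * blockP q none) = -1 := by
    simp [blockD, blockP]
  have e1 : ∀ Cl ∈ φ, eval (bv F x) ((∏ v ∈ blockD (some Cl), X v) * blockP q (some Cl))
      = eval (bv F x) (clauseMonomial F Cl * q Cl) := by
    intro Cl _
    rw [clauseMonomial_eq]
    rfl
  rw [e0, Finset.sum_congr rfl e1]
  linear_combination h

theorem block_clean {F : Type*} [Field F] {n : ℕ} (φ : CNF n) (q : Clause n → Poly F n) :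
    ∑ u ∈ Finset.insertNone φ, (∏ v ∈ blockD u, X v) * clean (blockD u) (blockP q u)
      = -1 + ∑ Cl ∈ φ, clauseMonomial F Cl * clean (dualSet Cl) (q Cl) := by
  rw [Finset.sum_insertNone]
  have e0 : (∏ v ∈ blockD (none : Option (Clause n)), X v) * clean (blockD (none : Option (Clause n))) (blockP q none)
      = (-1 : Poly F n) := by
    show (∏ v ∈ (∅ : Finset (Fin n × Bool)), X v) * clean ∅ (C (-1)) = (-1 : Poly F n)
    rw [clean_const _ (by simp : (-1 : F) ≠ 0), Finset.prod_empty, one_mul, map_neg, map_one]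
  rw [e0]
  congr 1
  apply Finset.sum_congr rfl
  intro Cl _
  rw [clauseMonomial_eq]
  rfl

theorem polySizeW_zero {F : Type*} [Field F] {n : ℕ} (p : Poly F n) :
    polySizeW (fun _ => 0) p = p.support.card := by
  simp [polySizeW]

theorem polySizeW_bit {n : ℕ} (p : Poly ℚ n) : polySizeW bitSize p = polySize p := rfl

/-- explicit NSR from succinct NSR, number of monomials -/
theorem explicit_of_succinct (F : Type*) [Field F] (n : ℕ) (φ : CNF n) (q : Clause n → Poly F n)
    (hq : IsSuccinctNSR φ q) :
    ∃ (q' : Clause n → Poly F n) (r s : Fin n → Poly F n), IsNSR φ q' r s ∧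
      ∑ C ∈ φ, (q' C).support.card + ∑ j, (r j).support.card + ∑ j, (s j).support.card
        ≤ ∑ C ∈ φ, (q C).support.card + (∑ C ∈ φ, (q C).support.card + 1) ^ 2 := by
  classical
  have hcard : ∑ u ∈ Finset.insertNone φ, (blockP q u).support.card ≤ ∑ C ∈ φ, (q C).support.card + 1 := by
    rw [Finset.sum_insertNone, add_comm]
    apply Nat.add_le_add
    · exact le_rfl
    · show ((C (-1) : Poly F n)).support.card ≤ 1
      rw [support_C]
      split_ifs <;> simp
  obtain ⟨L, h1, h2, _⟩ := Pool.Agent.Helper82.NSR.assemblyB (fun _ : F => True) (fun _ _ => trivial)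
    (Finset.insertNone φ) blockD (blockP q) _ hcard (fun _ _ _ _ => trivial) (block_eval φ q hq)
  refine ⟨fun Cl => clean (dualSet Cl) (q Cl), fun _ => 0, fun j => -mult L j, ?_, ?_⟩
  · unfold IsNSR
    have e3 := sum_mult L
    simp only [mul_neg, Finset.sum_neg_distrib, mul_zero, Finset.sum_const_zero, add_zero]
    rw [e3, h1, block_clean]
    ring
  · have b1 : ∑ Cl ∈ φ, (clean (dualSet Cl) (q Cl)).support.card ≤ ∑ C ∈ φ, (q C).support.card :=
      Finset.sum_le_sum (fun Cl _ => card_support_clean_le _ _)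
    have b2 : ∑ j : Fin n, ((0 : Poly F n)).support.card = 0 := by
      simp
    have b3 : ∑ j : Fin n, (-mult L j).support.card ≤ (∑ C ∈ φ, (q C).support.card + 1) ^ 2 := by
      simp only [support_neg]
      exact (sum_card_mult L).trans h2
    simp only at b1 b2 b3 ⊢
    omega

/-- explicit NSR over `ℚ` from succinct NSR, monomials and bits -/
theorem explicit_of_succinctQ (n : ℕ) (φ : CNF n) (q : Clause n → Poly ℚ n) (hq : IsSuccinctNSR φ q) :
    ∃ (q' : Clause n → Poly ℚ n) (r s : Fin n → Poly ℚ n), IsNSR φ q' r s ∧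
      ∑ C ∈ φ, polySize (q' C) + ∑ j, polySize (r j) + ∑ j, polySize (s j)
        ≤ 5 * ∑ C ∈ φ, polySize (q C) + (∑ C ∈ φ, polySize (q C) + 1) ^ 2 * (2 * (∑ C ∈ φ, polySize (q C) + 2) + 5) := by
  classical
  set S := ∑ C ∈ φ, polySize (q C) with hS
  have hcard : ∑ u ∈ Finset.insertNone φ, (blockP q u).support.card ≤ S + 1 := by
    rw [Finset.sum_insertNone, add_comm]
    apply Nat.add_le_add
    · exact Finset.sum_le_sum (fun Cl _ => card_le_polySize (q Cl))
    · show ((C (-1) : Poly ℚ n)).support.card ≤ 1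
      rw [support_C]
      split_ifs <;> simp
  obtain ⟨s, h1, h2⟩ := Pool.Agent.Helper82.NSR.assemblyQ (Finset.insertNone φ) blockD (blockP q) (S + 1)
    (S + 2) hcard (by
      intro u hu m hm
      cases u with
      | none =>
        have h3 : m = 0 := by
          have : m ∈ (C (-1) : Poly ℚ n).support := hm
          rw [support_C] at this
          split_ifs at this with h
          · simp at this
          · simpa using this
        have h4 : (blockP q none).coeff m = -1 := by
          rw [h3]
          show (C (-1) : Poly ℚ n).coeff 0 = -1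
          rw [coeff_C, if_pos rfl]
        rw [h4]
        have h5 : bits (-1) = 2 := by
          unfold bits
          norm_num
        omega
      | some Cl =>
        have h3 : Cl ∈ φ := by simpa using hu
        calc bits ((blockP q (some Cl)).coeff m) ≤ polySize (q Cl) := bits_le_polySize _ _ hm
          _ ≤ S := Finset.single_le_sum (f := fun Cl => polySize (q Cl)) (fun _ _ => Nat.zero_le _) h3
          _ ≤ _ := Nat.le_add_right _ _) (block_eval φ q hq)
  refine ⟨fun Cl => clean (dualSet Cl) (q Cl), fun _ => 0, fun j => -s j, ?_, ?_⟩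
  · unfold IsNSR
    simp only [mul_neg, Finset.sum_neg_distrib, mul_zero, Finset.sum_const_zero, add_zero]
    rw [h1, block_clean]
    ring
  · have b1 : ∑ Cl ∈ φ, polySize (clean (dualSet Cl) (q Cl)) ≤ 5 * S := by
      rw [hS, Finset.mul_sum]
      exact Finset.sum_le_sum (fun Cl _ => polySize_clean_le _ _)
    have b2 : ∑ j : Fin n, polySize (0 : Poly ℚ n) = 0 := by
      simp [polySize]
    have b3 : ∑ j : Fin n, polySize (-s j) = ∑ j, polySize (s j) := by
      apply Finset.sum_congr rfl
      intro j _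
      exact polySize_neg (s j)
    simp only at b1 b2 b3 ⊢
    omega

/-- the trivial direction: drop the axiom terms -/
theorem succinct_of_explicit {F : Type*} [Field F] {n : ℕ} {φ : CNF n} {q : Clause n → Poly F n}
    {r s : Fin n → Poly F n} (h : IsNSR φ q r s) : IsSuccinctNSR φ q := by
  unfold IsSuccinctNSR
  unfold IsNSR at h
  have e : ∑ C ∈ φ, clauseMonomial F C * q C - 1 =
      -(∑ j, (X (j, true) ^ 2 - X (j, true)) * r j + ∑ j, (X (j, true) + X (j, false) - 1) * s j) := by
    linear_combination h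
  rw [e]
  apply neg_mem
  apply add_mem
  · apply sum_mem
    intro j _
    exact Ideal.mul_mem_right _ _ (Ideal.subset_span (Or.inl ⟨j, rfl⟩))
  · apply sum_mem
    intro j _
    exact Ideal.mul_mem_right _ _ (Ideal.subset_span (Or.inr ⟨j, rfl⟩))

theorem simulates_back (F : Type u) [Field F] (w : F → ℕ) : PolySimulates (SuccinctNSR F w) (NSR F w) := by
  refine ⟨Polynomial.X, ?_⟩
  intro n φ t _ h
  obtain ⟨q, r, s, h1, h2⟩ := h
  refine ⟨_, ⟨q, succinct_of_explicit h1, rfl⟩, ?_⟩
  rw [Polynomial.eval_X, h2]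
  omega

/-- **Q1.** Over every field, NSR and succinct NSR are polynomially equivalent with respect to the number
of monomials; over `ℚ` they are also polynomially equivalent when the bit size of the coefficients is
counted as well. -/
theorem result :
    (∀ (F : Type u) [Field F], PolyEquivalent (SuccinctNSR F (fun _ => 0)) (NSR F (fun _ => 0))) ∧
    PolyEquivalent (SuccinctNSR ℚ bitSize) (NSR ℚ bitSize) := by
  constructor
  · intro F _
    refine ⟨simulates_back F _, ⟨Polynomial.X + (Polynomial.X + 1) ^ 2, ?_⟩⟩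
    intro n φ t _ h
    obtain ⟨q, h1, h2⟩ := h
    obtain ⟨q', r, s, h3, h4⟩ := explicit_of_succinct F n φ q h1
    refine ⟨_, ⟨q', r, s, h3, rfl⟩, ?_⟩
    simp only [polySizeW_zero] at h2 ⊢
    rw [← h2] at h4
    refine h4.trans ?_
    simp only [Polynomial.eval_add, Polynomial.eval_X, Polynomial.eval_pow, Polynomial.eval_one]
    gcongr <;> omega
  · refine ⟨simulates_back ℚ _, ⟨5 * Polynomial.X + (Polynomial.X + 1) ^ 2 * (2 * (Polynomial.X + 2) + 5), ?_⟩⟩
    intro n φ t _ h
    obtain ⟨q, h1, h2⟩ := h
    obtain ⟨q', r, s, h3, h4⟩ := explicit_of_succinctQ n φ q h1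
    refine ⟨_, ⟨q', r, s, h3, rfl⟩, ?_⟩
    simp only [polySizeW_bit] at h2 ⊢
    rw [← h2] at h4
    refine h4.trans ?_
    simp only [Polynomial.eval_add, Polynomial.eval_mul, Polynomial.eval_X, Polynomial.eval_pow,
      Polynomial.eval_one, Polynomial.eval_ofNat]
    gcongr <;> omega

end Pool.Agent.Results.MP_f11ae4_lc.NSREquivalence
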