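import Mathlib
import Pool.Agent.Helper82.NSR.Assembly

namespace Pool.Agent.Results.MP_f11ae4_lc.SAEquivalence

open MvPolynomial

/-- A literal over `x_0, ..., x_(n-1)`: `(j, true)` is `x_j`, `(j, false)` is `¬ x_j`.
A clause is a finite set of literals, a CNF a finite set of clauses. -/
abbrev Clause (n : ℕ) := Finset (Fin n × Bool)

abbrev CNF (n : ℕ) := Finset (Clause n)

/-- Every assignment falsifies some clause. -/
def Unsatisfiable {n : ℕ} (φ : CNF n) : Prop :=
  ∀ x : Fin n → Bool, ∃ C ∈ φ, ∀ l ∈ C, x l.1 ≠ l.2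

/-- `|φ|`: total number of literal occurrences plus the number of clauses. -/
def cnfSize {n : ℕ} (φ : CNF n) : ℕ := ∑ C ∈ φ, (C.card + 1)

/-- Polynomials in the variables `x_j = X (j, true)` and the dual variables `x̄_j = X (j, false)`. -/
abbrev Poly (n : ℕ) := MvPolynomial (Fin n × Bool) ℚ

/-- `m_C`: the product of `x̄_j` over `x_j ∈ C` and of `x_j` over `¬ x_j ∈ C`. -/
noncomputable def clauseMonomial {n : ℕ} (C : Clause n) : Poly n :=
  ∏ l ∈ C, X (l.1, !l.2)

/-- A conic junta: a nonnegative rational combination of monomials. -/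
def IsConicJunta {n : ℕ} (p : Poly n) : Prop := ∀ m, 0 ≤ p.coeff m

/-- Sherali–Adams refutation with dual variables: `P, Q` are the multipliers of the clause axioms,
`P1, Q1` of `x_j^2 - x_j`, `P2, Q2` of `x_j + x̄_j - 1`. -/
def IsSA {n : ℕ} (φ : CNF n) (P Q : Clause n → Poly n) (P1 Q1 P2 Q2 : Fin n → Poly n) (R : Poly n) : Prop :=
  (∀ C ∈ φ, IsConicJunta (P C) ∧ IsConicJunta (Q C)) ∧
  (∀ j, IsConicJunta (P1 j) ∧ IsConicJunta (Q1 j)) ∧
  (∀ j, IsConicJunta (P2 j) ∧ IsConicJunta (Q2 j)) ∧
  IsConicJunta R ∧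
  ∑ C ∈ φ, clauseMonomial C * (P C - Q C) + ∑ j, (X (j, true) ^ 2 - X (j, true)) * (P1 j - Q1 j)
    + ∑ j, (X (j, true) + X (j, false) - 1) * (P2 j - Q2 j) + R = -1

/-- The ideal generated by `x_j^2 - x_j` and `x_j + x̄_j - 1`. -/
noncomputable def boolIdeal (n : ℕ) : Ideal (Poly n) :=
  Ideal.span (Set.range (fun j : Fin n => (X (j, true) ^ 2 - X (j, true) : Poly n)) ∪
    Set.range (fun j : Fin n => (X (j, true) + X (j, false) - 1 : Poly n)))

/-- Succinct SA refutation: `∑ m_C (P_C - Q_C) + R ≡ -1` modulo the ideal. -/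
def IsSuccinctSA {n : ℕ} (φ : CNF n) (P Q : Clause n → Poly n) (R : Poly n) : Prop :=
  (∀ C ∈ φ, IsConicJunta (P C) ∧ IsConicJunta (Q C)) ∧ IsConicJunta R ∧
  ∑ C ∈ φ, clauseMonomial C * (P C - Q C) + R - (-1) ∈ boolIdeal n

/-- Bit size of a rational number: binary lengths of numerator and denominator. -/
def bitSize (a : ℚ) : ℕ := Nat.size a.num.natAbs + Nat.size a.den

/-- Size of a rational polynomial: number of monomials plus the bit size of the coefficients. -/
noncomputable def qSize {n : ℕ} (p : Poly n) : ℕ := ∑ m ∈ p.support, (1 + bitSize (p.coeff m))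

/-- A refutation system with a size measure: `A n φ t` says that the CNF `φ` in `n` variables has an
`A`-refutation of size `t`. -/
abbrev System := (n : ℕ) → CNF n → ℕ → Prop

/-- Sherali–Adams; all conic juntas count. -/
def SA : System := fun n φ t =>
  ∃ (P Q : Clause n → Poly n) (P1 Q1 P2 Q2 : Fin n → Poly n) (R : Poly n), IsSA φ P Q P1 Q1 P2 Q2 R ∧
    t = ∑ C ∈ φ, (qSize (P C) + qSize (Q C)) + ∑ j, (qSize (P1 j) + qSize (Q1 j))
      + ∑ j, (qSize (P2 j) + qSize (Q2 j)) + qSize R

/-- Succinct Sherali–Adams; only `P_C, Q_C, R` count. -/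
def SuccinctSA : System := fun n φ t =>
  ∃ (P Q : Clause n → Poly n) (R : Poly n), IsSuccinctSA φ P Q R ∧
    t = ∑ C ∈ φ, (qSize (P C) + qSize (Q C)) + qSize R

/-- `A` polynomially simulates `B`. -/
def PolySimulates (A B : System) : Prop :=
  ∃ p : Polynomial ℕ, ∀ (n : ℕ) (φ : CNF n) (s : ℕ), Unsatisfiable φ → B n φ s →
    ∃ t, A n φ t ∧ t ≤ p.eval (s + cnfSize φ)

/-- Mutual polynomial simulation. -/
def PolyEquivalent (A B : System) : Prop := PolySimulates A B ∧ PolySimulates B A

open Pool.Agent.Helper80.NSR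

/-- the set of variables occurring in `m_C` -/
def dualSet {n : ℕ} (C : Clause n) : Finset (Fin n × Bool) := C.image (fun l => (l.1, !l.2))

theorem clauseMonomial_eq {n : ℕ} (C : Clause n) :
    clauseMonomial C = ∏ v ∈ dualSet C, X v := by
  unfold clauseMonomial dualSet
  rw [Finset.prod_image]
  intro a _ b _ h
  simp only [Prod.mk.injEq, Bool.not_inj_iff] at h
  exact Prod.ext h.1 h.2

theorem eval_boolIdeal {n : ℕ} (x : Fin n → Bool) (p : Poly n)
    (hp : p ∈ boolIdeal n) : eval (bv ℚ x) p = 0 := by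
  have h : boolIdeal n ≤ RingHom.ker (eval (bv ℚ x)) := by
    unfold boolIdeal
    rw [Ideal.span_le]
    rintro _ (⟨j, rfl⟩ | ⟨j, rfl⟩)
    · simp only [SetLike.mem_coe, RingHom.mem_ker, map_sub, map_pow, eval_X]
      rw [pow_two, bv_idem, sub_self]
    · simp only [SetLike.mem_coe, RingHom.mem_ker, map_sub, map_add, eval_X, map_one]
      unfold bv
      cases x j <;> simp
  exact h hp

/-- index type of the blocks: `inl false` the constant `1`, `inl true` the junta `R`,
`inr (C, true)` the junta `P_C`, `inr (C, false)` the polynomial `-Q_C` -/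
abbrev Blk (n : ℕ) := Bool ⊕ (Clause n × Bool)

noncomputable def blockD {n : ℕ} : Blk n → Finset (Fin n × Bool)
  | Sum.inl _ => ∅
  | Sum.inr (C, _) => dualSet C

noncomputable def blockP {n : ℕ} (P Q : Clause n → Poly n) (R : Poly n) : Blk n → Poly n
  | Sum.inl false => C 1
  | Sum.inl true => R
  | Sum.inr (Cl, true) => P Cl
  | Sum.inr (Cl, false) => - Q Cl

noncomputable def blocks {n : ℕ} (φ : CNF n) : Finset (Blk n) :=
  Finset.disjSum Finset.univ (φ ×ˢ Finset.univ)

theorem sum_blocks {n : ℕ} {M : Type*} [AddCommMonoid M] (φ : CNF n) (f : Blk n → M) :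
    ∑ u ∈ blocks φ, f u = (f (Sum.inl true) + f (Sum.inl false)) +
      ∑ Cl ∈ φ, (f (Sum.inr (Cl, true)) + f (Sum.inr (Cl, false))) := by
  unfold blocks
  rw [Finset.sum_disjSum, Fintype.sum_bool, Finset.sum_product]
  congr 1
  apply Finset.sum_congr rfl
  intro Cl _
  rw [Fintype.sum_bool]

theorem block_eval {n : ℕ} (φ : CNF n) (P Q : Clause n → Poly n) (R : Poly n)
    (hq : ∑ Cl ∈ φ, clauseMonomial Cl * (P Cl - Q Cl) + R - (-1) ∈ boolIdeal n) (x : Fin n → Bool) :
    ∑ u ∈ blocks φ, eval (bv ℚ x) ((∏ v ∈ blockD u, X v) * blockP P Q R u) = 0 := by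
  rw [sum_blocks]
  have h := eval_boolIdeal x _ hq
  rw [sub_neg_eq_add, map_add, map_add, map_one, map_sum] at h
  have e0 : eval (bv ℚ x) ((∏ v ∈ blockD (Sum.inl false : Blk n), X v) * blockP P Q R (Sum.inl false)) = 1 := by
    simp [blockD, blockP]
  have e1 : eval (bv ℚ x) ((∏ v ∈ blockD (Sum.inl true : Blk n), X v) * blockP P Q R (Sum.inl true))
      = eval (bv ℚ x) R := by
    simp [blockD, blockP]
  have e2 : ∀ Cl ∈ φ, eval (bv ℚ x) ((∏ v ∈ blockD (Sum.inr (Cl, true) : Blk n), X v) * blockP P Q R (Sum.inr (Cl, true)))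
      + eval (bv ℚ x) ((∏ v ∈ blockD (Sum.inr (Cl, false) : Blk n), X v) * blockP P Q R (Sum.inr (Cl, false)))
      = eval (bv ℚ x) (clauseMonomial Cl * (P Cl - Q Cl)) := by
    intro Cl _
    rw [clauseMonomial_eq, ← map_add]
    congr 1
    simp only [blockD, blockP]
    ring
  rw [e0, e1, Finset.sum_congr rfl e2]
  linear_combination h

theorem block_clean {n : ℕ} (φ : CNF n) (P Q : Clause n → Poly n) (R : Poly n) :
    ∑ u ∈ blocks φ, (∏ v ∈ blockD u, X v) * clean (blockD u) (blockP P Q R u)
      = (clean ∅ R + 1) + ∑ Cl ∈ φ, clauseMonomial Cl * (clean (dualSet Cl) (P Cl) - clean (dualSet Cl) (Q Cl)) := by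
  rw [sum_blocks]
  congr 1
  · congr 1
    · simp [blockD, blockP]
    · simp only [blockD, blockP]
      rw [clean_const _ (by norm_num : (1 : ℚ) ≠ 0), Finset.prod_empty, one_mul, map_one]
  · apply Finset.sum_congr rfl
    intro Cl _
    simp only [blockD, blockP]
    rw [clauseMonomial_eq, clean_neg]
    ring

/-- total size of the juntas of a succinct refutation -/
noncomputable def succinctSize {n : ℕ} (φ : CNF n) (P Q : Clause n → Poly n) (R : Poly n) : ℕ :=
  ∑ C ∈ φ, (qSize (P C) + qSize (Q C)) + qSize R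

theorem polySize_le_succinct {n : ℕ} (φ : CNF n) (P Q : Clause n → Poly n) (R : Poly n) :
    polySize R ≤ succinctSize φ P Q R ∧ ∀ Cl ∈ φ, polySize (P Cl) ≤ succinctSize φ P Q R ∧
      polySize (Q Cl) ≤ succinctSize φ P Q R := by
  constructor
  · exact Nat.le_add_left _ _
  · intro Cl hCl
    have h := Finset.single_le_sum (f := fun Cl => qSize (P Cl) + qSize (Q Cl)) (fun _ _ => Nat.zero_le _) hCl
    have h1 : qSize (P Cl) = polySize (P Cl) := rfl
    have h2 : qSize (Q Cl) = polySize (Q Cl) := rfl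
    unfold succinctSize
    constructor <;> omega

theorem explicit_of_succinct (n : ℕ) (φ : CNF n) (P Q : Clause n → Poly n) (R : Poly n) (h : IsSuccinctSA φ P Q R) :
    ∃ (P' Q' : Clause n → Poly n) (P1 Q1 P2 Q2 : Fin n → Poly n) (R' : Poly n),
      IsSA φ P' Q' P1 Q1 P2 Q2 R' ∧
      ∑ C ∈ φ, (qSize (P' C) + qSize (Q' C)) + ∑ j, (qSize (P1 j) + qSize (Q1 j))
        + ∑ j, (qSize (P2 j) + qSize (Q2 j)) + qSize R'
        ≤ 5 * succinctSize φ P Q R + (succinctSize φ P Q R + 1) ^ 2 * (2 * (succinctSize φ P Q R + 2) + 5) := by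
  classical
  obtain ⟨hPQ, hR, hid⟩ := h
  obtain ⟨bR, bPQ⟩ := polySize_le_succinct φ P Q R
  have hcard : ∑ u ∈ blocks φ, (blockP P Q R u).support.card ≤ succinctSize φ P Q R + 1 := by
    rw [sum_blocks]
    have c1 : (blockP P Q R (Sum.inl false)).support.card ≤ 1 := by
      show ((C 1 : Poly n)).support.card ≤ 1
      rw [support_C]
      split_ifs <;> simp
    have c2 : (blockP P Q R (Sum.inl true)).support.card ≤ qSize R := card_le_polySize R
    have c3 : ∑ Cl ∈ φ, ((blockP P Q R (Sum.inr (Cl, true))).support.card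
        + (blockP P Q R (Sum.inr (Cl, false))).support.card) ≤ ∑ Cl ∈ φ, (qSize (P Cl) + qSize (Q Cl)) := by
      apply Finset.sum_le_sum
      intro Cl _
      apply Nat.add_le_add
      · exact card_le_polySize (P Cl)
      · show (- Q Cl).support.card ≤ _
        rw [support_neg]
        exact card_le_polySize (Q Cl)
    unfold succinctSize
    omega
  obtain ⟨s, h1, h2⟩ := Pool.Agent.Helper82.NSR.assemblyQ (blocks φ) blockD (blockP P Q R)
      (succinctSize φ P Q R + 1) (succinctSize φ P Q R + 2) hcard (by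
        intro u hu m hm
        match u, hu, hm with
        | Sum.inl false, _, hm =>
          have h3 : m = 0 := by
            have : m ∈ (C 1 : Poly n).support := hm
            rw [support_C] at this
            split_ifs at this with h
            · simp at this
            · simpa using this
          have h4 : (blockP P Q R (Sum.inl false)).coeff m = 1 := by
            rw [h3]
            show (C 1 : Poly n).coeff 0 = 1
            rw [coeff_C, if_pos rfl]
          rw [h4]
          have h5 : bits 1 = 2 := by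
            unfold bits
            norm_num
          omega
        | Sum.inl true, _, hm =>
          calc bits ((blockP P Q R (Sum.inl true)).coeff m) ≤ polySize R := bits_le_polySize _ _ hm
            _ ≤ _ := by omega
        | Sum.inr (Cl, true), hu, hm =>
          have h3 : Cl ∈ φ := by
            unfold blocks at hu
            simpa using hu
          calc bits ((blockP P Q R (Sum.inr (Cl, true))).coeff m) ≤ polySize (P Cl) := bits_le_polySize _ _ hm
            _ ≤ _ := by have := (bPQ Cl h3).1; omega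
        | Sum.inr (Cl, false), hu, hm =>
          have h3 : Cl ∈ φ := by
            unfold blocks at hu
            simpa using hu
          calc bits ((blockP P Q R (Sum.inr (Cl, false))).coeff m) ≤ polySize (- Q Cl) := bits_le_polySize _ _ hm
            _ = polySize (Q Cl) := polySize_neg _
            _ ≤ _ := by have := (bPQ Cl h3).2; omega) (block_eval φ P Q R hid)
  refine ⟨fun Cl => clean (dualSet Cl) (P Cl), fun Cl => clean (dualSet Cl) (Q Cl), fun _ => 0, fun _ => 0,
    fun j => posPart (- s j), fun j => posPart (s j), clean ∅ R, ⟨?_, ?_, ?_, ?_, ?_⟩, ?_⟩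
  · intro Cl hCl
    exact ⟨coeff_clean_nonneg _ _ (hPQ Cl hCl).1, coeff_clean_nonneg _ _ (hPQ Cl hCl).2⟩
  · intro j
    exact ⟨fun m => by simp, fun m => by simp⟩
  · intro j
    exact ⟨fun m => coeff_posPart_nonneg _ m, fun m => coeff_posPart_nonneg _ m⟩
  · exact coeff_clean_nonneg _ _ hR
  · have e1 : ∀ j, posPart (- s j) - posPart (s j) = - s j := by
      intro j
      have := posPart_sub (- s j)
      rwa [neg_neg] at this
    simp only [e1, sub_self, mul_zero, Finset.sum_const_zero, add_zero, mul_neg, Finset.sum_neg_distrib]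
    rw [h1, block_clean]
    ring
  · have b1 : ∑ Cl ∈ φ, (qSize (clean (dualSet Cl) (P Cl)) + qSize (clean (dualSet Cl) (Q Cl))) + qSize (clean ∅ R)
        ≤ 5 * succinctSize φ P Q R := by
      unfold succinctSize
      rw [mul_add, Finset.mul_sum]
      apply Nat.add_le_add
      · apply Finset.sum_le_sum
        intro Cl _
        rw [mul_add]
        exact Nat.add_le_add (polySize_clean_le _ _) (polySize_clean_le _ _)
      · exact polySize_clean_le _ _
    have b2 : ∑ j : Fin n, (qSize ((fun _ => 0 : Fin n → Poly n) j) + qSize ((fun _ => 0 : Fin n → Poly n) j)) = 0 := by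
      simp [qSize]
    have b3 : ∑ j : Fin n, (qSize (posPart (- s j)) + qSize (posPart (s j))) ≤ ∑ j, polySize (s j) := by
      apply Finset.sum_le_sum
      intro j _
      have := polySize_posPart_add (s j)
      rw [add_comm] at this
      exact this
    simp only at b1 b2 b3 ⊢
    omega

/-- the trivial direction: drop the axiom terms -/
theorem succinct_of_explicit {n : ℕ} {φ : CNF n} {P Q : Clause n → Poly n} {P1 Q1 P2 Q2 : Fin n → Poly n}
    {R : Poly n} (h : IsSA φ P Q P1 Q1 P2 Q2 R) : IsSuccinctSA φ P Q R := by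
  obtain ⟨h1, _, _, h4, h5⟩ := h
  refine ⟨h1, h4, ?_⟩
  have e : ∑ C ∈ φ, clauseMonomial C * (P C - Q C) + R - (-1) =
      -(∑ j, (X (j, true) ^ 2 - X (j, true)) * (P1 j - Q1 j) +
        ∑ j, (X (j, true) + X (j, false) - 1) * (P2 j - Q2 j)) := by
    linear_combination h5
  rw [e]
  apply neg_mem
  apply add_mem
  · apply sum_mem
    intro j _
    exact Ideal.mul_mem_right _ _ (Ideal.subset_span (Or.inl ⟨j, rfl⟩))
  · apply sum_mem
    intro j _
    exact Ideal.mul_mem_right _ _ (Ideal.subset_span (Or.inr ⟨j, rfl⟩))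

/-- **Q2.** Sherali–Adams and succinct Sherali–Adams are polynomially equivalent. -/
theorem result : PolyEquivalent SuccinctSA SA := by
  constructor
  · refine ⟨Polynomial.X, ?_⟩
    intro n φ t _ h
    obtain ⟨P, Q, P1, Q1, P2, Q2, R, h1, h2⟩ := h
    refine ⟨_, ⟨P, Q, R, succinct_of_explicit h1, rfl⟩, ?_⟩
    rw [Polynomial.eval_X, h2]
    omega
  · refine ⟨5 * Polynomial.X + (Polynomial.X + 1) ^ 2 * (2 * (Polynomial.X + 2) + 5), ?_⟩
    intro n φ t _ h
    obtain ⟨P, Q, R, h1, h2⟩ := h
    obtain ⟨P', Q', P1, Q1, P2, Q2, R', h3, h4⟩ := explicit_of_succinct n φ P Q R h1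
    refine ⟨_, ⟨P', Q', P1, Q1, P2, Q2, R', h3, rfl⟩, ?_⟩
    have h5 : t = succinctSize φ P Q R := h2
    rw [← h5] at h4
    refine h4.trans ?_
    simp only [Polynomial.eval_add, Polynomial.eval_mul, Polynomial.eval_X, Polynomial.eval_pow,
      Polynomial.eval_one, Polynomial.eval_ofNat]
    gcongr <;> omega

end Pool.Agent.Results.MP_f11ae4_lc.SAEquivalence
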